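import Pool.Agent.Q250.IR.Rogers

/-!
Iterated remainder sets as unions of chains.
-/

set_option autoImplicit false

namespace Q250.IR

open Finset Classical

/-- The iterated remainder sets `S_j(n)`. -/
def S (n : ℕ) : ℕ → Finset ℕ
  | 0 => Finset.Icc 1 (n / 2)
  | (j + 1) => ((S n j).erase 0).image (fun k => n % k)

/-- `t` is reached by the chain with quotients `es` -/
def cond (n : ℕ) : List ℕ → ℕ → Prop
  | [], t => 1 ≤ t ∧ 2 * t ≤ n
  | (e :: es), t => ∃ k, n = e * k + t ∧ t < k ∧ cond n es k

lemma mem_S (n j t : ℕ) : t ∈ S n j ↔ ∃ es : List ℕ, es.length = j ∧ cond n es t := by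
  induction j generalizing t with
  | zero =>
    simp only [S, Finset.mem_Icc]
    constructor
    · rintro ⟨h1, h2⟩
      exact ⟨[], rfl, h1, by omega⟩
    · rintro ⟨es, hl, hc⟩
      rw [List.length_eq_zero_iff] at hl
      subst hl
      obtain ⟨h1, h2⟩ := hc
      exact ⟨h1, by omega⟩
  | succ j ih =>
    simp only [S, Finset.mem_image, Finset.mem_erase]
    constructor
    · rintro ⟨k, ⟨hk0, hk⟩, rfl⟩
      obtain ⟨es, hl, hc⟩ := (ih k).mp hk
      refine ⟨(n / k) :: es, by simp [hl], k, ?_, Nat.mod_lt _ (Nat.pos_of_ne_zero hk0), hc⟩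
      rw [mul_comm]; exact (Nat.div_add_mod n k).symm
    · rintro ⟨es, hl, hc⟩
      cases es with
      | nil => simp at hl
      | cons e es =>
        obtain ⟨k, h1, h2, h3⟩ := hc
        refine ⟨k, ⟨by omega, (ih k).mpr ⟨es, by simpa using hl, h3⟩⟩, ?_⟩
        rw [h1, mul_comm, Nat.mul_add_mod]
        exact Nat.mod_eq_of_lt h2

lemma cond_le (n : ℕ) (es : List ℕ) (t : ℕ) (h : cond n es t) : 2 * t ≤ n := by
  induction es generalizing t with
  | nil => exact h.2
  | cons e es ih =>
    obtain ⟨k, h1, h2, h3⟩ := h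
    have := ih k h3
    omega

/-- entries of a chain are positive and bounded -/
lemma cond_entries (n R : ℕ) (es : List ℕ) (t : ℕ) (h : cond n es t) (ht : n < (R + 1) * t) :
    ∀ e ∈ es, 1 ≤ e ∧ e ≤ R := by
  induction es generalizing t with
  | nil => simp
  | cons e es ih =>
    obtain ⟨k, h1, h2, h3⟩ := h
    have hk := cond_le n es k h3
    have hk' : n < (R + 1) * k := lt_of_lt_of_le ht (Nat.mul_le_mul_left _ h2.le)
    intro e' he'
    rcases List.mem_cons.mp he' with rfl | he'
    · constructor
      · by_contra hlt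
        have : e' = 0 := by omega
        subst this
        omega
      · by_contra hlt
        have : (R + 1) * k ≤ e' * k := Nat.mul_le_mul_right _ (by omega)
        omega
    · exact ih k h3 hk' e' he'

/-- lists of length `j` with entries in `[1, R]` -/
def EE (R : ℕ) : ℕ → Finset (List ℕ)
  | 0 => {[]}
  | (j + 1) => ((Finset.Icc 1 R) ×ˢ EE R j).image (fun p => p.1 :: p.2)

lemma mem_EE (R j : ℕ) (es : List ℕ) :
    es ∈ EE R j ↔ es.length = j ∧ ∀ e ∈ es, 1 ≤ e ∧ e ≤ R := by
  induction j generalizing es with
  | zero =>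
    simp only [EE, Finset.mem_singleton, List.length_eq_zero_iff]
    constructor
    · rintro rfl; simp
    · exact fun h => h.1
  | succ j ih =>
    simp only [EE, Finset.mem_image, Finset.mem_product, Finset.mem_Icc, Prod.exists]
    constructor
    · rintro ⟨a, b, ⟨ha, hb⟩, rfl⟩
      obtain ⟨h1, h2⟩ := (ih b).mp hb
      refine ⟨by simp [h1], ?_⟩
      intro e he
      rcases List.mem_cons.mp he with rfl | he
      · exact ha
      · exact h2 e he
    · rintro ⟨h1, h2⟩
      cases es with
      | nil => simp at h1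
      | cons e es =>
        refine ⟨e, es, ⟨h2 e (by simp), (ih es).mpr ⟨by simpa using h1, ?_⟩⟩, rfl⟩
        intro e' he'
        exact h2 e' (by simp [he'])

/-- the residue of the chain, for `n = 1` -/
def res : List ℕ → ℤ
  | [] => 0
  | (e :: es) => 1 - e * res es

/-- divisibility part of a chain -/
def cong (n : ℤ) : List ℕ → ℤ → Prop
  | [], _ => True
  | (e :: es), t => ∃ k : ℤ, n = e * k + t ∧ cong n es k

lemma cong_iff (n : ℤ) (es : List ℕ) (t : ℤ) :
    cong n es t ↔ ((es.prod : ℕ) : ℤ) ∣ t - n * res es := by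
  induction es generalizing t with
  | nil => simp [cong]
  | cons e es ih =>
    simp only [cong, res, List.prod_cons]
    constructor
    · rintro ⟨k, h1, h2⟩
      rw [ih] at h2
      obtain ⟨m, hm⟩ := h2
      refine ⟨-m, ?_⟩
      rw [Nat.cast_mul]
      have : k = n * res es + (es.prod : ℤ) * m := by linarith
      rw [this] at h1
      linear_combination -h1
    · rintro ⟨m, hm⟩
      refine ⟨n * res es - (es.prod : ℤ) * m, ?_, ?_⟩
      · rw [Nat.cast_mul] at hm
        linear_combination -hm
      · rw [ih]
        exact ⟨-m, by ring⟩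

/-- inequality part of a chain -/
def ineq : List ℕ → ℝ → Prop
  | [], x => 0 < x ∧ 2 * x ≤ 1
  | (e :: es), x => x < (1 - x) / e ∧ ineq es ((1 - x) / e)

lemma cond_iff (n : ℕ) (hn : 0 < n) (es : List ℕ) (hes : ∀ e ∈ es, 1 ≤ e) (t : ℕ) :
    cond n es t ↔ cong n es t ∧ ineq es ((t : ℝ) / n) := by
  have hn' : (0 : ℝ) < n := by exact_mod_cast hn
  induction es generalizing t with
  | nil =>
    simp only [cond, cong, ineq, true_and]
    constructor
    · rintro ⟨h1, h2⟩
      refine ⟨by positivity, ?_⟩
      have : (2 * t : ℝ) ≤ n := by exact_mod_cast h2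
      rw [← mul_div_assoc, div_le_one hn']
      exact this
    · rintro ⟨h1, h2⟩
      constructor
      · by_contra h
        have : t = 0 := by omega
        subst this
        simp at h1
      · rw [← mul_div_assoc, div_le_one hn'] at h2
        exact_mod_cast h2
  | cons e es ih =>
    have he : 1 ≤ e := hes e (by simp)
    have he' : (0 : ℝ) < e := by exact_mod_cast he
    have hes' : ∀ e ∈ es, 1 ≤ e := fun e' h => hes e' (by simp [h])
    simp only [cond, cong, ineq]
    constructor
    · rintro ⟨k, h1, h2, h3⟩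
      have hk : (1 - (t : ℝ) / n) / e = (k : ℝ) / n := by
        have : (n : ℝ) = e * k + t := by exact_mod_cast h1
        field_simp
        linarith
      replace h3 := (ih hes' k).mp h3
      refine ⟨⟨k, by exact_mod_cast h1, h3.1⟩, ?_, ?_⟩
      · rw [hk]
        gcongr
      · rw [hk]; exact h3.2
    · rintro ⟨⟨k, h1, h2⟩, h3, h4⟩
      have hk : (1 - (t : ℝ) / n) / e = (k : ℝ) / n := by
        have : (n : ℝ) = e * k + t := by exact_mod_cast h1
        field_simp
        linarith
      rw [hk] at h3 h4
      have h5 : (t : ℝ) < k := by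
        rw [div_lt_div_iff_of_pos_right hn'] at h3
        exact h3
      have h6 : (t : ℤ) < k := by exact_mod_cast h5
      obtain ⟨k', rfl⟩ := Int.eq_ofNat_of_zero_le (show 0 ≤ k by omega)
      refine ⟨k', by exact_mod_cast h1, by exact_mod_cast h6, ?_⟩
      refine (ih hes' k').mpr ⟨h2, ?_⟩
      simpa using h4

lemma ineq_convex (es : List ℕ) (x y z : ℝ) (hxy : x ≤ y) (hyz : y ≤ z) (hx : ineq es x)
    (hz : ineq es z) : ineq es y := by
  induction es generalizing x y z with
  | nil => exact ⟨lt_of_lt_of_le hx.1 hxy, by linarith [hz.2]⟩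
  | cons e es ih =>
    have he : (0 : ℝ) ≤ e := Nat.cast_nonneg e
    have h1 : (1 - z) / e ≤ (1 - y) / e := by gcongr
    have h2 : (1 - y) / e ≤ (1 - x) / e := by gcongr
    exact ⟨by linarith [hz.1], ih _ _ _ h1 h2 hz.2 hx.2⟩

lemma ineq_pos (es : List ℕ) (x : ℝ) (h : ineq es x) : x ≤ 1 / (es.length + 2) ∧
    (es ≠ [] → x < 1 / (es.length + 2)) := by
  induction es generalizing x with
  | nil =>
    simp only [List.length_nil, Nat.cast_zero, zero_add, ne_eq, not_true_eq_false,
      IsEmpty.forall_iff, and_true]
    linarith [h.2]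
  | cons e es ih =>
    have h1 := ih _ h.2
    have hx := h.1
    rcases Nat.eq_zero_or_pos e with rfl | he
    · -- then `(1 - x)/0 = 0`
      simp only [Nat.cast_zero, div_zero] at hx h1
      have : (0 : ℝ) < 1 / (((0 :: es : List ℕ).length : ℝ) + 2) := by positivity
      exact ⟨by linarith, fun _ => by linarith⟩
    · have he' : (0 : ℝ) < e := by exact_mod_cast he
      set K := (1 - x) / e with hK
      have hKe : e * K = 1 - x := by rw [hK]; field_simp
      set L : ℝ := (es.length : ℝ) with hL
      have hL0 : 0 ≤ L := Nat.cast_nonneg _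
      have hK1 : K * (L + 2) ≤ 1 := by
        have := h1.1
        rwa [le_div_iff₀ (by positivity)] at this
      have hlen : (((e :: es : List ℕ).length : ℕ) : ℝ) = L + 1 := by simp [hL]
      rw [hlen]
      have key : x < 1 / (L + 1 + 2) := by
        rw [lt_div_iff₀ (by positivity)]
        by_cases hx0 : x ≤ 0
        · have : x * (L + 1 + 2) ≤ 0 := mul_nonpos_of_nonpos_of_nonneg hx0 (by positivity)
          linarith
        · push Not at hx0
          have hK0 : 0 < K := lt_trans hx0 hx
          -- `e ≥ length + 2`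
          have hel : es.length + 2 ≤ e := by
            by_contra hlt
            push Not at hlt
            have h3 : (e : ℝ) ≤ L + 1 := by
              rw [hL]; exact_mod_cast (by omega : e ≤ es.length + 1)
            have h4 : e * K ≤ (L + 1) * K := by gcongr
            nlinarith
          have h5 : L + 2 ≤ (e : ℝ) := by rw [hL]; exact_mod_cast hel
          have h6 : (L + 2) * K ≤ e * K := by gcongr
          nlinarith
      exact ⟨key.le, fun _ => key⟩

end Q250.IR
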