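import Pool.Agent.Q250.IR.Special

/-!
Block counting.
-/

set_option autoImplicit false

namespace Q250.IR

open Finset Classical

/-- local count of residues covered by the chains in `E` -/
noncomputable def D (M : ℕ) (c : ℤ) (E : Finset (List ℕ)) : ℕ :=
  ((range M).filter fun r : ℕ => ∃ es ∈ E, ((es.prod : ℕ) : ℤ) ∣ (r : ℤ) - c * res es).card

lemma D_le (M : ℕ) (hM : 0 < M) (E : Finset (List ℕ)) (hE : ∀ es ∈ E, es.prod ∣ M) :
    D M 0 E ≤ D M 1 E := by
  have := rogers M hM (List ℕ) E (fun es => es.prod) hE (fun es => res es)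
  unfold D
  simpa using this

lemma D_gain (M Q : ℕ) (hM : 0 < M) (E : Finset (List ℕ)) (hE : ∀ es ∈ E, es.prod ∣ M)
    (heven : ∀ es ∈ E, 2 ∣ es.prod) (e1 e2 : List ℕ) (h1 : e1 ∈ E) (h2 : e2 ∈ E)
    (hp1 : e1.prod ∣ Q) (hp2 : e2.prod ∣ Q) (hQ : Q ∣ M) (hpar : res e1 % 2 ≠ res e2 % 2) :
    D M 0 E + M / Q ≤ D M 1 E := by
  set E1 := E.filter (fun es => res es % 2 = res e1 % 2) with hE1
  set E2 := E.filter (fun es => ¬ (res es % 2 = res e1 % 2)) with hE2
  have hE1E : ∀ es ∈ E1, es.prod ∣ M := fun es h => hE es (Finset.mem_filter.mp h).1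
  have hE2E : ∀ es ∈ E2, es.prod ∣ M := fun es h => hE es (Finset.mem_filter.mp h).1
  have k1 := D_le M hM E1 hE1E
  have k2 := D_le M hM E2 hE2E
  -- the union for `c = 1` is disjoint
  have hdisj : D M 1 E = D M 1 E1 + D M 1 E2 := by
    unfold D
    rw [← Finset.card_union_of_disjoint]
    · congr 1
      ext r
      simp only [mem_union, mem_filter, mem_range]
      constructor
      · rintro ⟨hr, es, hes, hd⟩
        by_cases hc : res es % 2 = res e1 % 2
        · exact Or.inl ⟨hr, es, Finset.mem_filter.mpr ⟨hes, hc⟩, hd⟩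
        · exact Or.inr ⟨hr, es, Finset.mem_filter.mpr ⟨hes, hc⟩, hd⟩
      · rintro (⟨hr, es, hes, hd⟩ | ⟨hr, es, hes, hd⟩)
        · exact ⟨hr, es, (Finset.mem_filter.mp hes).1, hd⟩
        · exact ⟨hr, es, (Finset.mem_filter.mp hes).1, hd⟩
    · rw [Finset.disjoint_left]
      intro r ha hb
      simp only [mem_filter, mem_range] at ha hb
      obtain ⟨_, es, hes, hd⟩ := ha
      obtain ⟨_, fs, hfs, hd'⟩ := hb
      obtain ⟨hesE, hes⟩ := Finset.mem_filter.mp hes
      obtain ⟨hfsE, hfs⟩ := Finset.mem_filter.mp hfs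
      have p1 : (2 : ℤ) ∣ (r : ℤ) - 1 * res es :=
        (Int.natCast_dvd_natCast.mpr (heven es hesE)).trans hd
      have p2 : (2 : ℤ) ∣ (r : ℤ) - 1 * res fs :=
        (Int.natCast_dvd_natCast.mpr (heven fs hfsE)).trans hd'
      omega
  -- the two unions for `c = 0` overlap in the multiples of `Q`
  have hover : D M 0 E + M / Q ≤ D M 0 E1 + D M 0 E2 := by
    unfold D
    set A1 := (range M).filter fun r : ℕ => ∃ es ∈ E1, ((es.prod : ℕ) : ℤ) ∣ (r : ℤ) - 0 * res es
    set A2 := (range M).filter fun r : ℕ => ∃ es ∈ E2, ((es.prod : ℕ) : ℤ) ∣ (r : ℤ) - 0 * res es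
    rw [← Finset.card_union_add_card_inter A1 A2]
    apply Nat.add_le_add
    · apply Finset.card_le_card
      intro r hr
      rw [mem_filter] at hr
      obtain ⟨hr, es, hes, hd⟩ := hr
      rw [mem_union]
      by_cases hc : res es % 2 = res e1 % 2
      · left
        exact Finset.mem_filter.mpr ⟨hr, es, Finset.mem_filter.mpr ⟨hes, hc⟩, hd⟩
      · right
        exact Finset.mem_filter.mpr ⟨hr, es, Finset.mem_filter.mpr ⟨hes, hc⟩, hd⟩
    · calc M / Q = (range (M / Q)).card := by simp
        _ = ((range (M / Q)).image (fun k => Q * k)).card := by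
          rw [Finset.card_image_of_injOn]
          intro a _ b _ hab
          rcases Nat.eq_zero_or_pos Q with h | h
          · subst h
            have := Nat.eq_zero_of_zero_dvd hQ
            omega
          · exact Nat.eq_of_mul_eq_mul_left h hab
        _ ≤ (A1 ∩ A2).card := by
          apply Finset.card_le_card
          intro r hr
          rw [Finset.mem_image] at hr
          obtain ⟨k, hk, rfl⟩ := hr
          rw [mem_range] at hk
          have hQ0 : 0 < Q := Nat.pos_of_dvd_of_pos hQ hM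
          have hlt : Q * k < M := by
            calc Q * k < Q * (M / Q) := Nat.mul_lt_mul_of_pos_left hk hQ0
              _ = M := Nat.mul_div_cancel' hQ
          rw [mem_inter]
          constructor
          · refine Finset.mem_filter.mpr ⟨mem_range.mpr hlt, e1, Finset.mem_filter.mpr ⟨h1, rfl⟩, ?_⟩
            rw [zero_mul, sub_zero]
            exact Int.natCast_dvd_natCast.mpr (hp1.mul_right k)
          · refine Finset.mem_filter.mpr ⟨mem_range.mpr hlt, e2,
              Finset.mem_filter.mpr ⟨h2, fun h => hpar h.symm⟩, ?_⟩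
            rw [zero_mul, sub_zero]
            exact Int.natCast_dvd_natCast.mpr (hp2.mul_right k)
  omega

/-- a set of naturals without three well separated elements has at most four elements -/
lemma card_le_four (s : Finset ℕ)
    (h : ∀ p ∈ s, ∀ q ∈ s, ∀ r ∈ s, p + 2 ≤ q → q + 2 ≤ r → False) : s.card ≤ 4 := by
  rcases s.eq_empty_or_nonempty with rfl | hne
  · simp
  · set m := s.min' hne
    set X := s.max' hne
    have hsub : s ⊆ {m, m + 1, X - 1, X} := by
      intro q hq
      have h1 : m ≤ q := Finset.min'_le s q hq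
      have h2 : q ≤ X := Finset.le_max' s q hq
      simp only [mem_insert, mem_singleton]
      by_contra hcon
      push Not at hcon
      exact h m (Finset.min'_mem s hne) q hq X (Finset.max'_mem s hne) (by omega) (by omega)
    calc s.card ≤ ({m, m + 1, X - 1, X} : Finset ℕ).card := Finset.card_le_card hsub
      _ ≤ 4 := Finset.card_le_four

lemma card_blocks (M N : ℕ) (P : ℕ → Prop) :
    ((range (M * N)).filter P).card =
      ∑ a ∈ range N, ((range M).filter fun r => P (a * M + r)).card := by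
  induction N with
  | zero => simp
  | succ N ih =>
    rw [Finset.sum_range_succ, ← ih, Nat.mul_succ]
    simp only [Finset.card_filter]
    rw [Finset.sum_range_add]
    congr 1
    refine Finset.sum_congr rfl fun r _ => ?_
    rw [mul_comm M N]

/-- a block on which the status of every chain is constant -/
def GoodBlock (M N R j a : ℕ) : Prop :=
  ∀ es ∈ EE R j, (∀ c r : ℕ, c ≤ 1 → r < M → ineq es (((a * M + r : ℕ) : ℝ) / ((M * N + c : ℕ) : ℝ)))
    ∨ (∀ c r : ℕ, c ≤ 1 → r < M → ¬ ineq es (((a * M + r : ℕ) : ℝ) / ((M * N + c : ℕ) : ℝ)))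

lemma card_bad (M N R j : ℕ) (hM : 0 < M) :
    ((range N).filter fun a => ¬ GoodBlock M N R j a).card ≤ 4 * (EE R j).card := by
  have hsub : ((range N).filter fun a => ¬ GoodBlock M N R j a) ⊆ (EE R j).biUnion fun es =>
      (range N).filter fun a =>
        (∃ c r : ℕ, c ≤ 1 ∧ r < M ∧ ineq es (((a * M + r : ℕ) : ℝ) / ((M * N + c : ℕ) : ℝ))) ∧
        (∃ c r : ℕ, c ≤ 1 ∧ r < M ∧ ¬ ineq es (((a * M + r : ℕ) : ℝ) / ((M * N + c : ℕ) : ℝ))) := by
    intro a ha
    rw [mem_filter] at ha
    obtain ⟨ha, hb⟩ := ha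
    unfold GoodBlock at hb
    push Not at hb
    obtain ⟨es, hes, ⟨c, r, hc, hr, h1⟩, ⟨c', r', hc', hr', h2⟩⟩ := hb
    rw [mem_biUnion]
    exact ⟨es, hes, mem_filter.mpr ⟨ha, ⟨c', r', hc', hr', h2⟩, ⟨c, r, hc, hr, h1⟩⟩⟩
  calc _ ≤ _ := Finset.card_le_card hsub
    _ ≤ ∑ es ∈ EE R j, 4 := by
      refine (Finset.card_biUnion_le).trans (Finset.sum_le_sum fun es _ => ?_)
      apply card_le_four
      -- separation
      have hsep : ∀ p q c r c' r' : ℕ, p + 2 ≤ q → p < N → q < N → c ≤ 1 → c' ≤ 1 → r < M →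
          r' < M → (((p * M + r : ℕ) : ℝ) / ((M * N + c : ℕ) : ℝ)) ≤
            (((q * M + r' : ℕ) : ℝ) / ((M * N + c' : ℕ) : ℝ)) := by
        intro p q c r c' r' hpq hp hq hc hc' hr hr'
        have hN : 0 < N := by omega
        have hMN : 0 < M * N := Nat.mul_pos hM hN
        have e1 : ((M * N + c : ℕ) : ℝ) > 0 := by exact_mod_cast (by omega : 0 < M * N + c)
        have e2 : ((M * N + c' : ℕ) : ℝ) > 0 := by exact_mod_cast (by omega : 0 < M * N + c')
        rw [div_le_div_iff₀ e1 e2]
        have key : (p * M + r) * (M * N + c') ≤ (q * M + r') * (M * N + c) := by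
          have a1 : (p * M + r) * (M * N + c') ≤ (p * M + (M - 1)) * (M * N + 1) := by
            apply Nat.mul_le_mul <;> omega
          have a2 : (p + 2) * M * (M * N) ≤ (q * M + r') * (M * N + c) := by
            apply Nat.mul_le_mul
            · calc (p + 2) * M ≤ q * M := Nat.mul_le_mul_right _ hpq
                _ ≤ _ := Nat.le_add_right _ _
            · omega
          have a3 : (p * M + (M - 1)) * (M * N + 1) ≤ (p + 2) * M * (M * N) := by
            obtain ⟨m, rfl⟩ : ∃ m, M = m + 1 := ⟨M - 1, by omega⟩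
            have b1 : p * (m + 1) + m + 1 ≤ (m + 1) * N := by
              have : (p + 1) * (m + 1) ≤ N * (m + 1) := Nat.mul_le_mul_right _ (by omega)
              nlinarith
            simp only [Nat.add_sub_cancel]
            nlinarith
          omega
        exact_mod_cast key
      intro p hp q hq r hr hpq hqr
      rw [mem_filter, mem_range] at hp hq hr
      obtain ⟨hpN, ⟨c1, r1, hc1, hr1, h1⟩, _⟩ := hp
      obtain ⟨hqN, _, ⟨c2, r2, hc2, hr2, h2⟩⟩ := hq
      obtain ⟨hrN, ⟨c3, r3, hc3, hr3, h3⟩, _⟩ := hr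
      apply h2
      exact ineq_convex es _ _ _ (hsep p q c1 r1 c2 r2 hpq hpN hqN hc1 hc2 hr1 hr2)
        (hsep q r c2 r2 c3 r3 hqr hqN hrN hc2 hc3 hr2 hr3) h1 h3
    _ = 4 * (EE R j).card := by rw [Finset.sum_const, smul_eq_mul, mul_comm]

/-- the block count -/
noncomputable def g (M N j c a : ℕ) : ℕ :=
  ((range M).filter fun r => a * M + r ∈ S (M * N + c) j).card

/-- membership in a high block -/
lemma mem_block (M N R j c a r : ℕ) (hM : ∀ es ∈ EE R j, es.prod ∣ M) (hc : c ≤ 1)
    (hpos : 0 < M * N) (hhigh : M * N + 1 < (R + 1) * (a * M)) :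
    a * M + r ∈ S (M * N + c) j ↔ ∃ es ∈ EE R j, ((es.prod : ℕ) : ℤ) ∣ (r : ℤ) - (c : ℤ) * res es ∧
      ineq es (((a * M + r : ℕ) : ℝ) / ((M * N + c : ℕ) : ℝ)) := by
  have hR : M * N + c < (R + 1) * (a * M + r) := by
    have : (R + 1) * (a * M) ≤ (R + 1) * (a * M + r) := Nat.mul_le_mul_left _ (by omega)
    omega
  have hdiv : ∀ es ∈ EE R j, (((es.prod : ℕ) : ℤ) ∣ ((a * M + r : ℕ) : ℤ) -
      ((M * N + c : ℕ) : ℤ) * res es ↔ ((es.prod : ℕ) : ℤ) ∣ (r : ℤ) - (c : ℤ) * res es) := by
    intro es hes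
    have h1 : ((es.prod : ℕ) : ℤ) ∣ (M : ℤ) := Int.natCast_dvd_natCast.mpr (hM es hes)
    have h2 : ((a * M + r : ℕ) : ℤ) - ((M * N + c : ℕ) : ℤ) * res es =
        ((r : ℤ) - (c : ℤ) * res es) + (M : ℤ) * (a - N * res es) := by
      rw [Nat.cast_add, Nat.cast_add, Nat.cast_mul, Nat.cast_mul]; ring
    rw [h2]
    exact dvd_add_left (h1.mul_right _)
  rw [mem_S]
  constructor
  · rintro ⟨es, hl, hcond⟩
    have hent := cond_entries _ R es _ hcond hR
    have hes : es ∈ EE R j := (mem_EE R j es).mpr ⟨hl, hent⟩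
    rw [cond_iff _ (by omega) es (fun e he => (hent e he).1)] at hcond
    obtain ⟨h1, h2⟩ := hcond
    rw [cong_iff] at h1
    exact ⟨es, hes, (hdiv es hes).mp h1, h2⟩
  · rintro ⟨es, hes, h1, h2⟩
    obtain ⟨hl, hent⟩ := (mem_EE R j es).mp hes
    refine ⟨es, hl, ?_⟩
    rw [cond_iff _ (by omega) es (fun e he => (hent e he).1), cong_iff]
    exact ⟨(hdiv es hes).mpr h1, h2⟩

/-- set of valid chains at the left end of block `a` -/
noncomputable def EB (M N R j a : ℕ) : Finset (List ℕ) :=
  (EE R j).filter fun es => ineq es (((a * M + 0 : ℕ) : ℝ) / ((M * N + 0 : ℕ) : ℝ))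

lemma g_eq (M N R j c a : ℕ) (hM : ∀ es ∈ EE R j, es.prod ∣ M) (hc : c ≤ 1)
    (hpos : 0 < M * N) (hhigh : M * N + 1 < (R + 1) * (a * M)) (hgood : GoodBlock M N R j a) :
    g M N j c a = D M (c : ℤ) (EB M N R j a) := by
  have hM0 : 0 < M := Nat.pos_of_mul_pos_right hpos
  unfold g D
  congr 1
  apply Finset.filter_congr
  intro r hr
  rw [mem_range] at hr
  rw [mem_block M N R j c a r hM hc hpos hhigh]
  constructor
  · rintro ⟨es, hes, h1, h2⟩
    refine ⟨es, ?_, h1⟩
    unfold EB
    rw [mem_filter]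
    refine ⟨hes, ?_⟩
    rcases hgood es hes with h | h
    · exact h 0 0 (by norm_num) hM0
    · exact absurd h2 (h c r hc hr)
  · rintro ⟨es, hes, h1⟩
    unfold EB at hes
    rw [mem_filter] at hes
    refine ⟨es, hes.1, h1, ?_⟩
    rcases hgood es hes.1 with h | h
    · exact h c r hc hr
    · exact absurd hes.2 (h 0 0 (by norm_num) hM0)

lemma g_le (M N j c a : ℕ) : g M N j c a ≤ M := by
  unfold g
  exact (Finset.card_filter_le _ _).trans (by simp)

lemma card_S (M N j c : ℕ) (hc : c ≤ 1) (h : 2 ≤ M * N) :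
    (S (M * N + c) j).card = ∑ a ∈ range N, g M N j c a := by
  unfold g
  have key := card_blocks M N (fun t => t ∈ S (M * N + c) j)
  have h1 : (S (M * N + c) j).card =
      (@Finset.filter ℕ (fun t => t ∈ S (M * N + c) j) (fun _ => Classical.propDecidable _)
        (range (M * N))).card := by
    congr 1
    ext t
    simp only [mem_filter, mem_range]
    constructor
    · intro ht
      refine ⟨?_, ht⟩
      obtain ⟨es, _, hcond⟩ := (mem_S _ _ _).mp ht
      have := cond_le _ _ _ hcond
      omega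
    · exact fun h => h.2
  rw [h1]
  refine Eq.trans ?_ (Eq.trans key ?_)
  · congr 1
  · refine Finset.sum_congr rfl fun a _ => ?_
    congr 1
    ext t
    simp only [mem_filter]

/-- Comparison of consecutive values. -/
theorem compare (j W : ℕ) (hj : 2 ≤ j) (hW : 1 ≤ W) :
    ∃ m C : ℕ, 0 < m ∧ ∀ N' : ℕ, 1 ≤ N' →
      (S (m * (j + 2).factorial * ((j + 3) * (j + 4) * N')) j).card + m * N' ≤
      (S (m * (j + 2).factorial * ((j + 3) * (j + 4) * N') + 1) j).card +
        m * (1 + ((j + 2).factorial + 1) * (C + N' / W)) := by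
  set Q := (j + 2).factorial with hQ
  have hQ0 : 0 < Q := Nat.factorial_pos _
  set R := (j + 3) * (j + 4) * W - 1 with hR
  have hR1 : R + 1 = (j + 3) * (j + 4) * W := by
    have : 0 < (j + 3) * (j + 4) * W := by positivity
    omega
  set m := 2 * ∏ es ∈ EE R j, es.prod with hm
  have hm0 : 0 < m := by
    rw [hm]
    apply Nat.mul_pos (by norm_num)
    apply Finset.prod_pos
    intro es hes
    obtain ⟨_, h⟩ := (mem_EE R j es).mp hes
    apply List.prod_pos
    intro e he
    exact (h e he).1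
  refine ⟨m, 4 * (EE R j).card + 1, hm0, ?_⟩
  intro N' hN'
  set M := m * Q with hMdef
  set N := (j + 3) * (j + 4) * N' with hNdef
  have hM0 : 0 < M := Nat.mul_pos hm0 hQ0
  have hN0 : 0 < N := by positivity
  have hM2 : 2 ≤ M := by
    have h2 : 2 ≤ m := by
      rw [hm]
      have : 0 < ∏ es ∈ EE R j, es.prod := by
        by_contra h
        have : ∏ es ∈ EE R j, es.prod = 0 := by omega
        rw [hm, this] at hm0
        simp at hm0
      omega
    calc 2 ≤ m := h2
      _ ≤ m * Q := Nat.le_mul_of_pos_right _ hQ0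
  have hdvd : ∀ es ∈ EE R j, es.prod ∣ M := by
    intro es hes
    apply Dvd.dvd.mul_right
    rw [hm]
    apply Dvd.dvd.mul_left
    exact Finset.dvd_prod_of_mem (fun es : List ℕ => es.prod) hes
  have hMN : 2 ≤ M * N := by
    calc 2 ≤ M := hM2
      _ ≤ M * N := Nat.le_mul_of_pos_right _ hN0
  have hmulhigh : ∀ a, N' < W * a → M * N + 1 < (R + 1) * (a * M) := by
    intro a ha
    have h1 : (j + 3) * (j + 4) * (N' + 1) ≤ (j + 3) * (j + 4) * (W * a) :=
      Nat.mul_le_mul_left _ ha
    have h2 : M * ((j + 3) * (j + 4) * (N' + 1)) ≤ M * ((j + 3) * (j + 4) * (W * a)) :=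
      Nat.mul_le_mul_left _ h1
    rw [hR1]
    calc M * N + 1 < M * N + M * 2 := by omega
      _ ≤ M * ((j + 3) * (j + 4) * (N' + 1)) := by
        rw [hNdef]
        have : 2 ≤ (j + 3) * (j + 4) := by nlinarith
        have h3 : M * 2 ≤ M * ((j + 3) * (j + 4)) := Nat.mul_le_mul_left _ this
        calc M * ((j + 3) * (j + 4) * N') + M * 2
            ≤ M * ((j + 3) * (j + 4) * N') + M * ((j + 3) * (j + 4)) := by omega
          _ = _ := by ring
      _ ≤ M * ((j + 3) * (j + 4) * (W * a)) := h2
      _ = (j + 3) * (j + 4) * W * (a * M) := by ring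
  -- good high blocks
  set G := (range N).filter fun a => GoodBlock M N R j a ∧ N' < W * a with hG
  set Bd := (range N).filter fun a => ¬ (GoodBlock M N R j a ∧ N' < W * a) with hBd
  have hcardBd : Bd.card ≤ 4 * (EE R j).card + 1 + N' / W := by
    have hsub : Bd ⊆ ((range N).filter fun a => ¬ GoodBlock M N R j a) ∪ range (N' / W + 1) := by
      intro a ha
      rw [hBd, mem_filter] at ha
      rw [mem_union, mem_filter, mem_range]
      by_cases hg : GoodBlock M N R j a
      · right
        have : ¬ N' < W * a := fun h => ha.2 ⟨hg, h⟩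
        push Not at this
        have h3 : a ≤ N' / W := by
          rw [Nat.le_div_iff_mul_le hW, mul_comm]; exact this
        exact mem_range.mpr (Nat.lt_succ_of_le h3)
      · left; exact ⟨mem_range.mp ha.1, hg⟩
    calc Bd.card ≤ _ := Finset.card_le_card hsub
      _ ≤ _ := Finset.card_union_le _ _
      _ ≤ 4 * (EE R j).card + (N' / W + 1) := by
        apply Nat.add_le_add (card_bad M N R j hM0)
        simp
      _ = _ := by ring
  -- special blocks
  set Sp := Finset.Ioo ((j + 3) * N') ((j + 4) * N') with hSp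
  have hSpc : Sp.card + 1 = N' := by
    rw [hSp, Nat.card_Ioo]
    have : (j + 4) * N' = (j + 3) * N' + N' := by ring
    omega
  have hSpN : Sp ⊆ range N := by
    intro a ha
    rw [hSp, mem_Ioo] at ha
    rw [mem_range]
    calc a < (j + 4) * N' := ha.2
      _ ≤ (j + 3) * ((j + 4) * N') := Nat.le_mul_of_pos_left _ (by omega)
      _ = N := by rw [hNdef]; ring
  -- gain in good blocks
  have hgain : ∀ a ∈ G, g M N j 0 a + (if a ∈ Sp then m else 0) ≤ g M N j 1 a := by
    intro a ha
    rw [hG, mem_filter] at ha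
    obtain ⟨haN, hgood, hhi⟩ := ha
    have hhigh := hmulhigh a hhi
    rw [g_eq M N R j 0 a hdvd (by norm_num) (by omega) hhigh hgood,
      g_eq M N R j 1 a hdvd (by norm_num) (by omega) hhigh hgood]
    have hEB : ∀ es ∈ EB M N R j a, es.prod ∣ M := by
      intro es hes
      unfold EB at hes
      exact hdvd es (mem_filter.mp hes).1
    by_cases hs : a ∈ Sp
    · rw [if_pos hs]
      rw [hSp, mem_Ioo] at hs
      -- the position of the block
      have hx : (((a * M + 0 : ℕ) : ℝ) / ((M * N + 0 : ℕ) : ℝ)) = (a : ℝ) / N := by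
        have hMr : (M : ℝ) ≠ 0 := by exact_mod_cast hM0.ne'
        rw [add_zero, add_zero]
        rw [Nat.cast_mul a M, Nat.cast_mul M N, mul_comm (a : ℝ) (M : ℝ),
          mul_div_mul_left _ _ hMr]
      have hNr : (0 : ℝ) < N := by exact_mod_cast hN0
      have hx1 : (a : ℝ) / N < 1 / ((j : ℝ) + 3) := by
        rw [div_lt_div_iff₀ hNr (by positivity)]
        have : a * (j + 3) < N := by
          calc a * (j + 3) < (j + 4) * N' * (j + 3) := Nat.mul_lt_mul_of_pos_right hs.2 (by omega)
            _ = N := by rw [hNdef]; ring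
        rw [one_mul]
        exact_mod_cast this
      have hx2 : 1 / ((j : ℝ) + 4) < (a : ℝ) / N := by
        rw [div_lt_div_iff₀ (by positivity) hNr]
        have : N < a * (j + 4) := by
          calc N = (j + 3) * N' * (j + 4) := by rw [hNdef]; ring
            _ < a * (j + 4) := Nat.mul_lt_mul_of_pos_right hs.1 (by omega)
        rw [one_mul]
        exact_mod_cast this
      have hx0 : 0 < (a : ℝ) / N := lt_trans (by positivity) hx2
      have hRj : j + 2 ≤ R := by
        have : j + 3 ≤ (j + 3) * (j + 4) * W := by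
          calc j + 3 ≤ (j + 3) * ((j + 4) * W) := Nat.le_mul_of_pos_right _ (by positivity)
            _ = _ := by ring
        omega
      have htop : top j ∈ EB M N R j a := by
        unfold EB
        rw [mem_filter, mem_EE, hx]
        refine ⟨⟨top_length j, fun e he => ?_⟩, ineq_top j _ hx0 (hx1.trans ?_)⟩
        · have := top_mem j e he; omega
        · apply one_div_lt_one_div_of_lt (by positivity); linarith
      have hbot : bot j ∈ EB M N R j a := by
        unfold EB
        rw [mem_filter, mem_EE, hx]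
        refine ⟨⟨bot_length j, fun e he => ?_⟩, ineq_bot j _ hx0 hx1⟩
        have := bot_mem j e he; omega
      have hev : ∀ es ∈ EB M N R j a, 2 ∣ es.prod := by
        intro es hes
        unfold EB at hes
        rw [mem_filter, mem_EE, hx] at hes
        exact even_prod j hj es _ hes.1.1 (fun e he => (hes.1.2 e he).1) hes.2 hx2
      have := D_gain M Q hM0 _ hEB hev (top j) (bot j) htop hbot (top_dvd j) (bot_dvd j)
        (Dvd.intro_left m rfl) (by
          rw [top_parity, bot_parity j hj]; omega)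
      rw [hMdef, Nat.mul_div_cancel _ hQ0, ← hMdef] at this
      exact_mod_cast this
    · rw [if_neg hs, add_zero]
      exact_mod_cast D_le M hM0 _ hEB
  -- assemble
  have hsplit : ∀ f : ℕ → ℕ, ∑ a ∈ range N, f a = ∑ a ∈ G, f a + ∑ a ∈ Bd, f a := by
    intro f
    rw [hG, hBd]
    exact (Finset.sum_filter_add_sum_filter_not _ _ _).symm
  have h0 : (S (M * N) j).card = ∑ a ∈ G, g M N j 0 a + ∑ a ∈ Bd, g M N j 0 a := by
    have := card_S M N j 0 (by norm_num) hMN
    rw [add_zero] at this
    rw [this, hsplit]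
  have h1 : (S (M * N + 1) j).card = ∑ a ∈ G, g M N j 1 a + ∑ a ∈ Bd, g M N j 1 a := by
    rw [card_S M N j 1 (by norm_num) hMN, hsplit]
  have h2 : ∑ a ∈ Bd, g M N j 0 a ≤ Bd.card * M := by
    rw [← smul_eq_mul, ← Finset.sum_const]
    exact Finset.sum_le_sum fun a _ => g_le M N j 0 a
  have h3 : ∑ a ∈ G, g M N j 0 a + ∑ a ∈ G, (if a ∈ Sp then m else 0) ≤ ∑ a ∈ G, g M N j 1 a := by
    rw [← Finset.sum_add_distrib]
    exact Finset.sum_le_sum hgain
  have h4 : (Sp.card - Bd.card) * m ≤ ∑ a ∈ G, (if a ∈ Sp then m else 0) := by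
    rw [← Finset.sum_filter, Finset.sum_const, smul_eq_mul]
    apply Nat.mul_le_mul_right
    have : Sp ⊆ (G.filter fun a => a ∈ Sp) ∪ Bd := by
      intro a ha
      rw [mem_union, mem_filter]
      by_cases hb : a ∈ Bd
      · exact Or.inr hb
      · left
        refine ⟨?_, ha⟩
        rw [hG, mem_filter]
        refine ⟨hSpN ha, ?_⟩
        by_contra hcon
        exact hb (mem_filter.mpr ⟨hSpN ha, hcon⟩)
    have := (Finset.card_le_card this).trans (Finset.card_union_le _ _)
    omega
  -- final arithmetic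
  have h5 : m * Sp.card ≤ (Sp.card - Bd.card) * m + m * Bd.card := by
    rw [mul_comm _ m, ← Nat.mul_add]
    exact Nat.mul_le_mul_left _ (by omega)
  have h6 : m * N' = m * Sp.card + m := by
    rw [← hSpc]; ring
  have h7 : m * Bd.card + Bd.card * M ≤ m * ((Q + 1) * (4 * (EE R j).card + 1 + N' / W)) := by
    calc m * Bd.card + Bd.card * M = m * ((Q + 1) * Bd.card) := by rw [hMdef]; ring
      _ ≤ _ := Nat.mul_le_mul_left _ (Nat.mul_le_mul_left _ hcardBd)
  have h8 : m * (1 + (Q + 1) * (4 * (EE R j).card + 1 + N' / W)) =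
      m + m * ((Q + 1) * (4 * (EE R j).card + 1 + N' / W)) := by ring
  rw [h8, h0, h1, h6]
  omega

end Q250.IR
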