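import Pool.Agent.Q250.IR.Count

/-!
Non-convergence of `s_j(n)/n`.
-/

set_option autoImplicit false

namespace Q250.IR

open Finset Classical Filter Topology

lemma S_card_le (n j : ℕ) (hn : 1 ≤ n) : (S n j).card ≤ n := by
  have : S n j ⊆ range n := by
    intro t ht
    obtain ⟨es, _, hc⟩ := (mem_S n j t).mp ht
    have := cond_le _ _ _ hc
    rw [mem_range]
    omega
  calc (S n j).card ≤ (range n).card := Finset.card_le_card this
    _ = n := by simp

/-- infinitely many large jumps -/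
theorem jumps (j : ℕ) (hj : 2 ≤ j) (δ : ℝ) (hδ : 0 < δ) (N0 : ℕ) :
    ∃ n : ℕ, N0 ≤ n ∧ 1 ≤ n ∧
      ((S n j).card : ℝ) + (1 - δ) / ((j + 4).factorial : ℝ) * n ≤ ((S (n + 1) j).card : ℝ) := by
  set Q := (j + 2).factorial with hQ
  have hQ0 : 0 < Q := Nat.factorial_pos _
  have hfac : (j + 4).factorial = Q * ((j + 3) * (j + 4)) := by
    rw [hQ, Nat.factorial_succ, Nat.factorial_succ]; ring
  obtain ⟨W, hW⟩ := exists_nat_ge (2 * ((Q : ℝ) + 1) / δ)
  have hW0 : (0 : ℝ) < W := lt_of_lt_of_le (by positivity) hW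
  have hW1 : 1 ≤ W := by exact_mod_cast hW0
  obtain ⟨m, C, hm, hcomp⟩ := compare j W hj hW1
  obtain ⟨N1, hN1⟩ := exists_nat_ge (2 * (1 + ((Q : ℝ) + 1) * C) / δ)
  set N' := max (max N0 N1) 1 with hN'
  have hN'1 : 1 ≤ N' := le_max_right _ _
  have hN'0 : N0 ≤ N' := (le_max_left _ _).trans (le_max_left _ _)
  have hN'N1 : N1 ≤ N' := (le_max_right _ _).trans (le_max_left _ _)
  have h := hcomp N' hN'1
  set n := m * Q * ((j + 3) * (j + 4) * N') with hn
  have hnN : N' ≤ n := by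
    rw [hn]
    calc N' ≤ (m * Q * ((j + 3) * (j + 4))) * N' := Nat.le_mul_of_pos_left _ (by positivity)
      _ = _ := by ring
  refine ⟨n, hN'0.trans hnN, hN'1.trans hnN, ?_⟩
  have hR : ((S n j).card : ℝ) + m * N' ≤ ((S (n + 1) j).card : ℝ) +
      m * (1 + ((Q : ℝ) + 1) * (C + ((N' / W : ℕ) : ℝ))) := by exact_mod_cast h
  have hdiv : ((N' / W : ℕ) : ℝ) ≤ (N' : ℝ) / W := Nat.cast_div_le
  have hnR : (n : ℝ) = m * ((j + 4).factorial : ℝ) * N' := by
    rw [hn, hfac]; push_cast; ring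
  have hf0 : (0 : ℝ) < ((j + 4).factorial : ℝ) := by exact_mod_cast Nat.factorial_pos _
  have e1 : (1 - δ) / ((j + 4).factorial : ℝ) * n = (1 - δ) * (m * N') := by
    rw [hnR]; field_simp
  rw [e1]
  have hmR : (0 : ℝ) < m := by exact_mod_cast hm
  have hNR : (0 : ℝ) < N' := by exact_mod_cast hN'1
  -- the two error terms
  have g1 : ((Q : ℝ) + 1) * ((N' / W : ℕ) : ℝ) ≤ δ / 2 * N' := by
    calc ((Q : ℝ) + 1) * ((N' / W : ℕ) : ℝ) ≤ ((Q : ℝ) + 1) * ((N' : ℝ) / W) :=
          mul_le_mul_of_nonneg_left hdiv (by positivity)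
      _ = ((Q : ℝ) + 1) / W * N' := by ring
      _ ≤ δ / 2 * N' := by
        apply mul_le_mul_of_nonneg_right _ hNR.le
        rw [div_le_iff₀ hW0]
        rw [div_le_iff₀ hδ] at hW
        linarith
  have g2 : 1 + ((Q : ℝ) + 1) * C ≤ δ / 2 * N' := by
    have : (N1 : ℝ) ≤ N' := by exact_mod_cast hN'N1
    have h3 := hN1.trans this
    rw [div_le_iff₀ hδ] at h3
    linarith
  have g3 : (m : ℝ) * (1 + ((Q : ℝ) + 1) * (C + ((N' / W : ℕ) : ℝ))) ≤ m * (δ * N') := by
    apply mul_le_mul_of_nonneg_left _ hmR.le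
    calc 1 + ((Q : ℝ) + 1) * (C + ((N' / W : ℕ) : ℝ))
        = (1 + ((Q : ℝ) + 1) * C) + ((Q : ℝ) + 1) * ((N' / W : ℕ) : ℝ) := by ring
      _ ≤ δ * N' := by linarith
  have e2 : (1 - δ) * ((m : ℝ) * N') = m * N' - m * (δ * N') := by ring
  rw [e2]
  linarith

/-- the ratio `s_j(n)/n` -/
noncomputable def ratio (j n : ℕ) : ℝ := ((S n j).card : ℝ) / n

lemma ratio_nonneg (j n : ℕ) : 0 ≤ ratio j n := by unfold ratio; positivity

lemma ratio_le (j n : ℕ) : ratio j n ≤ 1 := by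
  unfold ratio
  rcases Nat.eq_zero_or_pos n with rfl | hn
  · simp
  · rw [div_le_one (by exact_mod_cast hn)]
    exact_mod_cast S_card_le n j hn

lemma ratio_jump (j : ℕ) (hj : 2 ≤ j) (δ : ℝ) (hδ : 0 < δ) (N0 : ℕ) :
    ∃ n : ℕ, N0 ≤ n ∧ (1 - δ) / ((j + 4).factorial : ℝ) - 2 / n ≤ ratio j (n + 1) - ratio j n := by
  obtain ⟨n, h1, h2, h3⟩ := jumps j hj δ hδ N0
  refine ⟨n, h1, ?_⟩
  have hn : (0 : ℝ) < n := by exact_mod_cast h2
  have hf1 : (1 : ℝ) ≤ ((j + 4).factorial : ℝ) := by exact_mod_cast Nat.factorial_pos _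
  have hf0 : (0 : ℝ) < ((j + 4).factorial : ℝ) := by linarith
  set A := (1 - δ) / ((j + 4).factorial : ℝ) with hA
  have hA1 : A ≤ 1 := by
    rw [hA, div_le_one hf0]; linarith
  have hr := ratio_le j n
  have hr' : ((S n j).card : ℝ) = ratio j n * n := by
    unfold ratio; field_simp
  have key : ratio j (n + 1) ≥ (ratio j n * n + A * n) / (n + 1) := by
    unfold ratio
    rw [ge_iff_le]
    push_cast
    apply div_le_div_of_nonneg_right _ (by positivity)
    have : ((S n j).card : ℝ) / n * n = ((S n j).card : ℝ) := by field_simp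
    rw [this]
    exact h3
  have h4 : (ratio j n * n + A * n) / (n + 1) = ratio j n + A - (ratio j n + A) / (n + 1) := by
    field_simp; ring
  have h5 : (ratio j n + A) / (n + 1) ≤ 2 / n := by
    calc (ratio j n + A) / (n + 1) ≤ 2 / (n + 1) :=
          div_le_div_of_nonneg_right (by linarith) (by positivity)
      _ ≤ 2 / n := by
        apply div_le_div_of_nonneg_left (by norm_num) hn (by linarith)
  linarith

theorem gap (j : ℕ) (hj : 2 ≤ j) :
    liminf (fun n => ratio j n) atTop + 1 / ((j + 4).factorial : ℝ) ≤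
      limsup (fun n => ratio j n) atTop := by
  have hba : IsBoundedUnder (· ≤ ·) atTop (fun n => ratio j n) :=
    ⟨1, Filter.eventually_map.mpr (Filter.Eventually.of_forall fun n => ratio_le j n)⟩
  have hbb : IsBoundedUnder (· ≥ ·) atTop (fun n => ratio j n) :=
    ⟨0, Filter.eventually_map.mpr (Filter.Eventually.of_forall fun n => ratio_nonneg j n)⟩
  set l := liminf (fun n => ratio j n) atTop
  set L := limsup (fun n => ratio j n) atTop
  by_contra hcon
  push Not at hcon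
  set F := 1 / ((j + 4).factorial : ℝ) with hF
  have hF0 : 0 < F := by rw [hF]; positivity
  set η := (l + F - L) / 8 with hη
  have hη0 : 0 < η := by rw [hη]; linarith
  have ev1 : ∀ᶠ n in atTop, l - η < ratio j n :=
    eventually_lt_of_lt_liminf (by linarith) hbb
  have ev2 : ∀ᶠ n in atTop, ratio j n < L + η :=
    eventually_lt_of_limsup_lt (by linarith) hba
  obtain ⟨N1, hN1⟩ := Filter.eventually_atTop.mp (ev1.and ev2)
  obtain ⟨N2, hN2⟩ := exists_nat_ge (2 / η)
  have hN2' : (0 : ℝ) < N2 := lt_of_lt_of_le (by positivity) hN2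
  set δ := η / F with hδ
  have hδ0 : 0 < δ := by positivity
  obtain ⟨n, hn, hjump⟩ := ratio_jump j hj δ hδ0 (max N1 N2)
  have hn1 : N1 ≤ n := (le_max_left _ _).trans hn
  have hn2 : N2 ≤ n := (le_max_right _ _).trans hn
  have a1 := (hN1 n hn1).1
  have a2 := (hN1 (n + 1) (by omega)).2
  have a3 : (1 - δ) / ((j + 4).factorial : ℝ) = F - η := by
    have : (1 - δ) / ((j + 4).factorial : ℝ) = (1 - δ) * F := by rw [hF]; ring
    rw [this, hδ]; field_simp
  have a4 : 2 / (n : ℝ) ≤ η := by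
    have hnr : (N2 : ℝ) ≤ n := by exact_mod_cast hn2
    rw [div_le_iff₀ (by linarith)]
    rw [div_le_iff₀ hη0] at hN2
    nlinarith
  rw [a3] at hjump
  have : l + F - L = 8 * η := by rw [hη]; ring
  linarith

theorem not_tendsto (j : ℕ) (hj : 2 ≤ j) :
    ¬ ∃ L : ℝ, Tendsto (fun n => ratio j n) atTop (𝓝 L) := by
  rintro ⟨L, hL⟩
  have h := gap j hj
  rw [hL.liminf_eq, hL.limsup_eq] at h
  have : (0 : ℝ) < 1 / ((j + 4).factorial : ℝ) := by positivity
  linarith

end Q250.IR
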