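import Mathlib

/-!
Rogers' theorem: a union of residue classes is smallest when all classes are centred.
-/

set_option autoImplicit false

namespace Q250.IR

open Finset Classical

/-- number of elements with a property -/
noncomputable def cnt {A : Type} [Fintype A] (P : A → Prop) : ℕ :=
  (@Finset.filter A P (Classical.decPred P) univ).card

lemma cnt_eq_card {A : Type} [Fintype A] (P : A → Prop) [DecidablePred P] :
    cnt P = (univ.filter P).card := by
  unfold cnt
  congr

lemma cnt_mono {A : Type} [Fintype A] {P Q : A → Prop} (h : ∀ x, P x → Q x) : cnt P ≤ cnt Q := by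
  unfold cnt
  apply Finset.card_le_card
  intro x hx
  rw [Finset.mem_filter] at hx ⊢
  exact ⟨hx.1, h x hx.2⟩

lemma cnt_congr {A : Type} [Fintype A] {P Q : A → Prop} (h : ∀ x, P x ↔ Q x) : cnt P = cnt Q :=
  le_antisymm (cnt_mono fun x => (h x).mp) (cnt_mono fun x => (h x).mpr)

lemma cnt_equiv {A B : Type} [Fintype A] [Fintype B] (e : A ≃ B) (P : B → Prop) :
    cnt (fun x => P (e x)) = cnt P := by
  unfold cnt
  apply Finset.card_bij (fun x _ => e x)
  · intro x hx
    rw [Finset.mem_filter] at hx ⊢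
    exact ⟨mem_univ _, hx.2⟩
  · intro x _ y _ hxy
    exact e.injective hxy
  · intro y hy
    rw [Finset.mem_filter] at hy
    refine ⟨e.symm y, ?_, by simp⟩
    rw [Finset.mem_filter]
    exact ⟨mem_univ _, by simpa using hy.2⟩

lemma cnt_prod {A B : Type} [Fintype A] [Fintype B] (P : A × B → Prop) :
    cnt P = ∑ x : A, cnt (fun y : B => P (x, y)) := by
  unfold cnt
  simp only [Finset.card_filter]
  rw [Fintype.sum_prod_type]

lemma cnt_prod' {A B : Type} [Fintype A] [Fintype B] (P : A × B → Prop) :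
    cnt P = ∑ y : B, cnt (fun x : A => P (x, y)) := by
  unfold cnt
  simp only [Finset.card_filter]
  rw [Fintype.sum_prod_type, Finset.sum_comm]

/-- The Rogers property of a finite commutative ring. -/
def Rog (A : Type) [CommRing A] [Fintype A] : Prop :=
  ∀ (ι : Type) (I : Finset ι) (d a : ι → A),
    cnt (fun x : A => ∃ i ∈ I, d i ∣ x) ≤ cnt (fun x : A => ∃ i ∈ I, d i ∣ x - a i)

lemma rog_chain (A : Type) [CommRing A] [Fintype A] (h : ∀ x y : A, x ∣ y ∨ y ∣ x) : Rog A := by
  intro ι I d a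
  rcases I.eq_empty_or_nonempty with rfl | hne
  · simp
  · -- an index whose `d` divides all others
    obtain ⟨i0, hi0, hmin⟩ : ∃ i0 ∈ I, ∀ i ∈ I, d i0 ∣ d i := by
      induction I using Finset.induction_on with
      | empty => exact absurd hne (by simp)
      | insert j s hj ih =>
        rcases s.eq_empty_or_nonempty with rfl | hs
        · exact ⟨j, by simp, by simp⟩
        · obtain ⟨i0, hi0, hm⟩ := ih hs
          rcases h (d i0) (d j) with h1 | h1
          · refine ⟨i0, by simp [hi0], ?_⟩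
            intro i hi
            rcases Finset.mem_insert.mp hi with rfl | hi
            · exact h1
            · exact hm i hi
          · refine ⟨j, by simp, ?_⟩
            intro i hi
            rcases Finset.mem_insert.mp hi with rfl | hi
            · exact dvd_rfl
            · exact h1.trans (hm i hi)
    calc cnt (fun x : A => ∃ i ∈ I, d i ∣ x)
        ≤ cnt (fun x : A => d i0 ∣ x) := by
          apply cnt_mono
          rintro x ⟨i, hi, hd⟩
          exact (hmin i hi).trans hd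
      _ = cnt (fun x : A => d i0 ∣ x - a i0) := by
          rw [← cnt_equiv (Equiv.addRight (a i0)) (fun x : A => d i0 ∣ x - a i0)]
          apply cnt_congr
          intro x
          simp
      _ ≤ _ := by
          apply cnt_mono
          intro x hx
          exact ⟨i0, hi0, hx⟩

lemma rog_prod (A B : Type) [CommRing A] [Fintype A] [CommRing B] [Fintype B]
    (hA : Rog A) (hB : Rog B) : Rog (A × B) := by
  intro ι I d a
  calc cnt (fun x : A × B => ∃ i ∈ I, d i ∣ x)
      = ∑ x : A, cnt (fun y : B => ∃ i ∈ I.filter (fun i => (d i).1 ∣ x), (d i).2 ∣ y) := by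
        rw [cnt_prod]
        refine Finset.sum_congr rfl fun x _ => cnt_congr fun y => ?_
        constructor
        · rintro ⟨i, hi, hd⟩
          rw [prod_dvd_iff] at hd
          exact ⟨i, by simp [hi, hd.1], hd.2⟩
        · rintro ⟨i, hi, hd⟩
          rw [Finset.mem_filter] at hi
          exact ⟨i, hi.1, by rw [prod_dvd_iff]; exact ⟨hi.2, hd⟩⟩
    _ ≤ ∑ x : A, cnt (fun y : B =>
        ∃ i ∈ I.filter (fun i => (d i).1 ∣ x), (d i).2 ∣ y - (a i).2) :=
        Finset.sum_le_sum fun x _ => hB ι (I.filter (fun i => (d i).1 ∣ x))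
        (fun i => (d i).2) (fun i => (a i).2)
    _ = cnt (fun z : A × B => ∃ i ∈ I, (d i).1 ∣ z.1 ∧ (d i).2 ∣ z.2 - (a i).2) := by
        rw [cnt_prod]
        refine Finset.sum_congr rfl fun x _ => cnt_congr fun y => ?_
        constructor
        · rintro ⟨i, hi, hd⟩
          rw [Finset.mem_filter] at hi
          exact ⟨i, hi.1, hi.2, hd⟩
        · rintro ⟨i, hi, hd1, hd2⟩
          exact ⟨i, by simp [hi, hd1], hd2⟩
    _ = ∑ y : B, cnt (fun x : A =>
        ∃ i ∈ I.filter (fun i => (d i).2 ∣ y - (a i).2), (d i).1 ∣ x) := by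
        rw [cnt_prod']
        refine Finset.sum_congr rfl fun y _ => cnt_congr fun x => ?_
        constructor
        · rintro ⟨i, hi, hd1, hd2⟩
          exact ⟨i, by simp [hi, hd2], hd1⟩
        · rintro ⟨i, hi, hd⟩
          rw [Finset.mem_filter] at hi
          exact ⟨i, hi.1, hd, hi.2⟩
    _ ≤ ∑ y : B, cnt (fun x : A =>
        ∃ i ∈ I.filter (fun i => (d i).2 ∣ y - (a i).2), (d i).1 ∣ x - (a i).1) :=
        Finset.sum_le_sum fun y _ => hA ι (I.filter (fun i => (d i).2 ∣ y - (a i).2))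
        (fun i => (d i).1) (fun i => (a i).1)
    _ = cnt (fun x : A × B => ∃ i ∈ I, d i ∣ x - a i) := by
        rw [cnt_prod']
        refine Finset.sum_congr rfl fun y _ => cnt_congr fun x => ?_
        constructor
        · rintro ⟨i, hi, hd⟩
          rw [Finset.mem_filter] at hi
          exact ⟨i, hi.1, by rw [prod_dvd_iff]; exact ⟨hd, hi.2⟩⟩
        · rintro ⟨i, hi, hd⟩
          rw [prod_dvd_iff] at hd
          exact ⟨i, by rw [Finset.mem_filter]; exact ⟨hi, hd.2⟩, hd.1⟩

lemma rog_equiv (A B : Type) [CommRing A] [Fintype A] [CommRing B] [Fintype B]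
    (e : A ≃+* B) (hA : Rog A) : Rog B := by
  intro ι I d a
  have key : ∀ (a : ι → B), cnt (fun x : B => ∃ i ∈ I, d i ∣ x - a i) =
      cnt (fun x : A => ∃ i ∈ I, e.symm (d i) ∣ x - e.symm (a i)) := by
    intro a
    rw [← cnt_equiv e.toEquiv]
    apply cnt_congr
    intro x
    constructor
    · rintro ⟨i, hi, hd⟩
      refine ⟨i, hi, ?_⟩
      have := map_dvd e.symm hd
      simpa using this
    · rintro ⟨i, hi, hd⟩
      refine ⟨i, hi, ?_⟩
      have := map_dvd e hd
      simpa using this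
  have k0 := key 0
  have k1 := key a
  simp only [Pi.zero_apply, sub_zero, map_zero] at k0
  rw [k0, k1]
  exact hA ι I _ _

lemma rog_zmod_prime_pow (p k : ℕ) (hp : p.Prime) [NeZero (p ^ k)] : Rog (ZMod (p ^ k)) := by
  apply rog_chain
  -- every element is a unit times a power of `p`
  have key : ∀ x : ZMod (p ^ k), ∃ (j : ℕ) (u : ℕ), IsUnit (u : ZMod (p ^ k)) ∧
      x = (p : ZMod (p ^ k)) ^ j * u := by
    intro x
    by_cases hx : x = 0
    · refine ⟨k, 1, by simp, ?_⟩
      rw [hx, ← Nat.cast_pow, ZMod.natCast_self]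
      simp
    · have hv : x.val ≠ 0 := by
        intro h
        apply hx
        rw [ZMod.val_eq_zero] at h
        exact h
      obtain ⟨j, u, hu, hj⟩ := Nat.exists_eq_pow_mul_and_not_dvd hv p hp.ne_one
      refine ⟨j, u, ?_, ?_⟩
      · rw [ZMod.isUnit_iff_coprime]
        exact Nat.Coprime.pow_right _ ((Nat.Prime.coprime_iff_not_dvd hp).mpr hu).symm
      · have : ((x.val : ℕ) : ZMod (p ^ k)) = x := ZMod.natCast_zmod_val x
        rw [← this, hj]
        push_cast
        rfl
  intro x y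
  obtain ⟨j, u, hu, rfl⟩ := key x
  obtain ⟨l, w, hw, rfl⟩ := key y
  rcases le_total j l with h | h
  · left
    obtain ⟨v, hv⟩ := hu
    obtain ⟨m, rfl⟩ := Nat.exists_eq_add_of_le h
    refine ⟨(p : ZMod (p ^ k)) ^ m * w * (v⁻¹ : (ZMod (p ^ k))ˣ), ?_⟩
    rw [← hv, pow_add]
    have : (v : ZMod (p ^ k)) * ((v⁻¹ : (ZMod (p ^ k))ˣ) : ZMod (p ^ k)) = 1 := v.mul_inv
    linear_combination (-(p : ZMod (p ^ k)) ^ j * (p : ZMod (p ^ k)) ^ m * (w : ZMod (p ^ k))) * this
  · right
    obtain ⟨v, hv⟩ := hw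
    obtain ⟨m, rfl⟩ := Nat.exists_eq_add_of_le h
    refine ⟨(p : ZMod (p ^ k)) ^ m * u * (v⁻¹ : (ZMod (p ^ k))ˣ), ?_⟩
    rw [← hv, pow_add]
    have : (v : ZMod (p ^ k)) * ((v⁻¹ : (ZMod (p ^ k))ˣ) : ZMod (p ^ k)) = 1 := v.mul_inv
    linear_combination (-(p : ZMod (p ^ k)) ^ l * (p : ZMod (p ^ k)) ^ m * (u : ZMod (p ^ k))) * this

/-- `ZMod M` has the Rogers property. -/
theorem rog_zmod (M : ℕ) : ∀ [NeZero M], Rog (ZMod M) := by
  induction M using Nat.recOnPosPrimePosCoprime with
  | prime_pow p n hp hn =>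
    intro _
    exact rog_zmod_prime_pow p n hp
  | zero => intro h; exact absurd rfl h.out
  | one =>
    intro _
    apply rog_chain
    intro x y
    left
    exact ⟨0, Subsingleton.elim _ _⟩
  | coprime a b ha hb hab iha ihb =>
    intro _
    have : NeZero a := ⟨by omega⟩
    have : NeZero b := ⟨by omega⟩
    exact rog_equiv _ _ (ZMod.chineseRemainder hab).symm (rog_prod _ _ iha ihb)

lemma dvd_zmod {M m : ℕ} (hm : m ∣ M) (z : ℤ) : (m : ZMod M) ∣ (z : ZMod M) ↔ (m : ℤ) ∣ z := by
  constructor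
  · rintro ⟨w, hw⟩
    obtain ⟨w', rfl⟩ := ZMod.intCast_surjective w
    have h1 : ((z - m * w' : ℤ) : ZMod M) = 0 := by
      push_cast
      rw [hw]; ring
    rw [ZMod.intCast_zmod_eq_zero_iff_dvd] at h1
    have h2 : (m : ℤ) ∣ z - m * w' := (Int.natCast_dvd_natCast.mpr hm).trans h1
    have h3 : z = (z - m * w') + m * w' := by ring
    rw [h3]
    exact dvd_add h2 (dvd_mul_right _ _)
  · rintro ⟨w, rfl⟩
    exact ⟨(w : ZMod M), by push_cast; rfl⟩

/-- Rogers' theorem for residues `0 ≤ r < M`. -/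
theorem rogers (M : ℕ) (hM : 0 < M) (ι : Type) (I : Finset ι) (m : ι → ℕ)
    (hm : ∀ i ∈ I, m i ∣ M) (c : ι → ℤ) :
    ((range M).filter fun r : ℕ => ∃ i ∈ I, (m i : ℤ) ∣ (r : ℤ)).card ≤
      ((range M).filter fun r : ℕ => ∃ i ∈ I, (m i : ℤ) ∣ (r : ℤ) - c i).card := by
  have : NeZero M := ⟨hM.ne'⟩
  have key : ∀ c : ι → ℤ, ((range M).filter fun r : ℕ => ∃ i ∈ I, (m i : ℤ) ∣ (r : ℤ) - c i).card =
      cnt (fun x : ZMod M => ∃ i ∈ I, (m i : ZMod M) ∣ x - ((c i : ℤ) : ZMod M)) := by
    intro c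
    rw [cnt_eq_card]
    apply Finset.card_bij (fun (r : ℕ) _ => (r : ZMod M))
    · intro r hr
      rw [Finset.mem_filter] at hr ⊢
      obtain ⟨_, i, hi, hd⟩ := hr
      refine ⟨mem_univ _, i, hi, ?_⟩
      have := (dvd_zmod (hm i hi) _).mpr hd
      push_cast at this
      exact this
    · intro r hr s hs hrs
      rw [Finset.mem_filter, Finset.mem_range] at hr hs
      have := (ZMod.natCast_eq_natCast_iff' r s M).mp hrs
      rwa [Nat.mod_eq_of_lt hr.1, Nat.mod_eq_of_lt hs.1] at this
    · intro y hy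
      rw [Finset.mem_filter] at hy
      obtain ⟨_, i, hi, hd⟩ := hy
      refine ⟨y.val, ?_, ZMod.natCast_zmod_val y⟩
      rw [Finset.mem_filter, Finset.mem_range]
      refine ⟨ZMod.val_lt y, i, hi, ?_⟩
      rw [← dvd_zmod (hm i hi)]
      push_cast
      rw [ZMod.natCast_zmod_val]
      exact hd
  have k0 := key 0
  have k1 := key c
  simp only [Pi.zero_apply, sub_zero, Int.cast_zero] at k0
  rw [k0, k1]
  exact rog_zmod M ι I _ _

end Q250.IR
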