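import Pool.Agent.Q250.IR.Chain

/-!
The chains valid just below `n / (j + 3)`.
-/

set_option autoImplicit false

namespace Q250.IR

open Finset Classical

/-- the top chain `(j+1, j, …, 2)` -/
def top : ℕ → List ℕ
  | 0 => []
  | (j + 1) => (j + 2) :: top j

/-- the bottom chain `(j+2, j+1, …, 3)` -/
def bot : ℕ → List ℕ
  | 0 => []
  | (j + 1) => (j + 3) :: bot j

lemma top_length (j : ℕ) : (top j).length = j := by
  induction j with
  | zero => rfl
  | succ j ih => simp [top, ih]

lemma bot_length (j : ℕ) : (bot j).length = j := by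
  induction j with
  | zero => rfl
  | succ j ih => simp [bot, ih]

lemma top_mem (j e : ℕ) (h : e ∈ top j) : 1 ≤ e ∧ e ≤ j + 1 := by
  induction j with
  | zero => simp [top] at h
  | succ j ih =>
    rcases List.mem_cons.mp h with rfl | h
    · omega
    · have := ih h; omega

lemma bot_mem (j e : ℕ) (h : e ∈ bot j) : 1 ≤ e ∧ e ≤ j + 2 := by
  induction j with
  | zero => simp [bot] at h
  | succ j ih =>
    rcases List.mem_cons.mp h with rfl | h
    · omega
    · have := ih h; omega

lemma top_prod (j : ℕ) : (top j).prod = (j + 1).factorial := by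
  induction j with
  | zero => simp [top]
  | succ j ih =>
    rw [top, List.prod_cons, ih, ← Nat.factorial_succ]

lemma bot_prod (j : ℕ) : (bot j).prod * 2 = (j + 2).factorial := by
  induction j with
  | zero => simp [bot]
  | succ j ih =>
    rw [bot, List.prod_cons, mul_assoc, ih, ← Nat.factorial_succ]

lemma top_dvd (j : ℕ) : (top j).prod ∣ (j + 2).factorial := by
  rw [top_prod]; exact Nat.factorial_dvd_factorial (by omega)

lemma bot_dvd (j : ℕ) : (bot j).prod ∣ (j + 2).factorial := ⟨2, (bot_prod j).symm⟩

/-- parity of the residue of the top chain -/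
lemma top_parity (j : ℕ) : res (top j) % 2 = (j : ℤ) % 2 := by
  induction j with
  | zero => simp [top, res]
  | succ j ih =>
    rw [top, res]
    have h1 : (((j + 2 : ℕ) : ℤ) * res (top j)) % 2 = ((j : ℤ) % 2) * (j % 2) % 2 := by
      rw [Int.mul_emod, ih]
      push_cast
      rw [Int.add_emod, show (2 : ℤ) % 2 = 0 by norm_num, add_zero, Int.emod_emod_of_dvd _ dvd_rfl]
    have h2 : (j : ℤ) % 2 = 0 ∨ (j : ℤ) % 2 = 1 := Int.emod_two_eq_zero_or_one _
    push_cast at h1 ⊢
    rcases h2 with h2 | h2 <;> rw [h2] at h1 <;> omega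

/-- parity of the residue of the bottom chain -/
lemma bot_parity (j : ℕ) (hj : 2 ≤ j) : res (bot j) % 2 = ((j : ℤ) + 1) % 2 := by
  induction j, hj using Nat.le_induction with
  | base => simp [bot, res]
  | succ j hj ih =>
    rw [bot, res]
    have h1 : (((j + 3 : ℕ) : ℤ) * res (bot j)) % 2 = (((j : ℤ) + 1) % 2) * (((j : ℤ) + 1) % 2) % 2 := by
      rw [Int.mul_emod, ih]
      congr 2
      push_cast
      omega
    have h2 : ((j : ℤ) + 1) % 2 = 0 ∨ ((j : ℤ) + 1) % 2 = 1 := Int.emod_two_eq_zero_or_one _
    push_cast at h1 ⊢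
    rcases h2 with h2 | h2 <;> rw [h2] at h1 <;> omega

lemma ineq_top (j : ℕ) (x : ℝ) (h0 : 0 < x) (h1 : x < 1 / (j + 2)) : ineq (top j) x := by
  induction j generalizing x with
  | zero =>
    simp only [Nat.cast_zero, zero_add] at h1
    exact ⟨h0, by linarith⟩
  | succ j ih =>
    rw [lt_div_iff₀ (by positivity)] at h1
    push_cast at h1
    have hj : (0 : ℝ) ≤ j := Nat.cast_nonneg j
    have hx : x < (1 - x) / ((j + 2 : ℕ) : ℝ) := by
      rw [lt_div_iff₀ (by positivity)]
      push_cast
      nlinarith
    refine ⟨hx, ih _ (lt_trans h0 hx) ?_⟩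
    push_cast
    gcongr
    linarith

lemma ineq_bot (j : ℕ) (x : ℝ) (h0 : 0 < x) (h1 : x < 1 / (j + 3)) : ineq (bot j) x := by
  induction j generalizing x with
  | zero =>
    simp only [Nat.cast_zero, zero_add] at h1
    exact ⟨h0, by linarith⟩
  | succ j ih =>
    rw [lt_div_iff₀ (by positivity)] at h1
    push_cast at h1
    have hj : (0 : ℝ) ≤ j := Nat.cast_nonneg j
    have hx : x < (1 - x) / ((j + 3 : ℕ) : ℝ) := by
      rw [lt_div_iff₀ (by positivity)]
      push_cast
      nlinarith
    refine ⟨hx, ih _ (lt_trans h0 hx) ?_⟩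
    push_cast
    gcongr
    linarith

/-- uniqueness of the chain above `1/(j+3)` -/
lemma eq_top (j : ℕ) (es : List ℕ) (x : ℝ) (hl : es.length = j) (he : ∀ e ∈ es, 1 ≤ e)
    (h : ineq es x) (hx : 1 / ((j : ℝ) + 3) < x) : es = top j := by
  induction j generalizing es x with
  | zero =>
    rw [List.length_eq_zero_iff] at hl
    exact hl
  | succ j ih =>
    cases es with
    | nil => simp at hl
    | cons e es =>
      have hl' : es.length = j := by simpa using hl
      have he1 : 1 ≤ e := he e (by simp)
      have he' : (0 : ℝ) < e := by exact_mod_cast he1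
      have hub := (ineq_pos _ _ h).2 (by simp)
      have hubK := (ineq_pos _ _ h.2).1
      obtain ⟨h1, h2⟩ := h
      set K := (1 - x) / e with hK
      have hKe : e * K = 1 - x := by rw [hK]; field_simp
      have hx0 : 0 < x := lt_trans (by positivity) hx
      rw [div_lt_iff₀ (by positivity)] at hx
      rw [lt_div_iff₀ (by positivity)] at hub
      rw [le_div_iff₀ (by positivity)] at hubK
      rw [hl'] at hubK
      simp only [List.length_cons, hl'] at hub
      push_cast at hx hub
      have hj : (0 : ℝ) ≤ j := Nat.cast_nonneg j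
      -- `e = j + 2`
      have hle : e ≤ j + 2 := by
        by_contra hlt
        push Not at hlt
        have h3 : (j : ℝ) + 3 ≤ e := by exact_mod_cast hlt
        have h4 : (j + 3) * x < e * K := by
          calc (j + 3) * x < (j + 3) * K := by gcongr
            _ ≤ e * K := by
              have : 0 < K := lt_trans hx0 h1
              gcongr
        nlinarith
      have hge : j + 2 ≤ e := by
        by_contra hlt
        push Not at hlt
        have h3 : (e : ℝ) ≤ j + 1 := by exact_mod_cast (by omega : e ≤ j + 1)
        have hK0 : 0 < K := lt_trans hx0 h1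
        have h4 : e * K ≤ (j + 1) * K := by gcongr
        nlinarith
      have heq : e = j + 2 := le_antisymm hle hge
      subst heq
      rw [top, ih es K hl' (fun e' h => he e' (by simp [h])) h2 ?_]
      rw [div_lt_iff₀ (by positivity)]
      push_cast at hKe
      nlinarith

/-- evenness of all the products in the special range -/
lemma even_prod (j : ℕ) (hj : 2 ≤ j) : ∀ (es : List ℕ) (x : ℝ), es.length = j →
    (∀ e ∈ es, 1 ≤ e) → ineq es x → 1 / ((j : ℝ) + 4) < x → 2 ∣ es.prod := by
  -- one step analysis
  have step : ∀ (j : ℕ) (e : ℕ) (es : List ℕ) (x : ℝ), es.length = j → (∀ e' ∈ e :: es, 1 ≤ e') →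
      ineq (e :: es) x → 1 / (((j + 1 : ℕ) : ℝ) + 4) < x →
      (e = j + 2 ∧ es = top j) ∨ (e = j + 3 ∧ 1 / ((j : ℝ) + 4) < (1 - x) / e) := by
    intro j e es x hl he h hx
    have he1 : 1 ≤ e := he e (by simp)
    have he' : (0 : ℝ) < e := by exact_mod_cast he1
    have hub := (ineq_pos _ _ h).2 (by simp)
    have hubK := (ineq_pos _ _ h.2).1
    obtain ⟨h1, h2⟩ := h
    set K := (1 - x) / e with hK
    have hKe : e * K = 1 - x := by rw [hK]; field_simp
    have hx0 : 0 < x := lt_trans (by positivity) hx
    rw [div_lt_iff₀ (by positivity)] at hx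
    rw [lt_div_iff₀ (by positivity)] at hub
    rw [le_div_iff₀ (by positivity)] at hubK
    rw [hl] at hubK
    simp only [List.length_cons, hl] at hub
    push_cast at hx hub
    have hj : (0 : ℝ) ≤ j := Nat.cast_nonneg j
    have hK0 : 0 < K := lt_trans hx0 h1
    have hle : e ≤ j + 3 := by
      by_contra hlt
      push Not at hlt
      have h3 : (j : ℝ) + 4 ≤ e := by exact_mod_cast hlt
      have h4 : (j + 4) * x < e * K := by
        calc (j + 4) * x < (j + 4) * K := by gcongr
          _ ≤ e * K := by gcongr
      nlinarith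
    have hge : j + 2 ≤ e := by
      by_contra hlt
      push Not at hlt
      have h3 : (e : ℝ) ≤ j + 1 := by exact_mod_cast (by omega : e ≤ j + 1)
      have h4 : e * K ≤ (j + 1) * K := by gcongr
      nlinarith
    rcases (by omega : e = j + 2 ∨ e = j + 3) with rfl | rfl
    · left
      refine ⟨rfl, eq_top j es K hl (fun e' h => he e' (by simp [h])) h2 ?_⟩
      rw [div_lt_iff₀ (by positivity)]
      push_cast at hKe
      nlinarith
    · right
      refine ⟨rfl, ?_⟩
      rw [div_lt_iff₀ (by positivity)]
      push_cast at hKe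
      have h5 : (j + 4) * x < 1 := by nlinarith
      nlinarith
  induction j, hj using Nat.le_induction with
  | base =>
    intro es x hl he h hx
    cases es with
    | nil => simp at hl
    | cons e es =>
      have hl' : es.length = 1 := by simpa using hl
      rcases step 1 e es x hl' he h (by push_cast at hx ⊢; norm_num at hx ⊢; exact hx) with
        ⟨rfl, rfl⟩ | ⟨rfl, _⟩
      · simp [top]
      · rw [List.prod_cons]; exact Dvd.dvd.mul_right (by norm_num) _
  | succ j hj ih =>
    intro es x hl he h hx
    cases es with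
    | nil => simp at hl
    | cons e es =>
      have hl' : es.length = j := by simpa using hl
      rcases step j e es x hl' he h hx with ⟨rfl, rfl⟩ | ⟨rfl, hx'⟩
      · rw [List.prod_cons, top_prod]
        apply Dvd.dvd.mul_left
        exact Nat.dvd_factorial (by norm_num) (by omega)
      · rw [List.prod_cons]
        apply Dvd.dvd.mul_left
        exact ih es _ hl' (fun e' h => he e' (by simp [h])) h.2 hx'

end Q250.IR
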